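import Mathlib
import Pool.Agent.Helper59.SuppDefs
import Pool.Agent.Helper59.SuppMain

namespace Pool.Agent.Results.MP_2eb075_an.NotExtreme

open Pool.Agent.Helper59.SuppDefs

/-- For every `lam ∈ [1,2)` the map `F(z) = (z₁ + a₀/(2-lam) z₂², z₂)` belongs to the class
`S_A^0(𝔹²)`, `A = diag(lam,1)`, but is not an extreme point of it. -/
theorem result (lam : ℝ) (h1 : 1 ≤ lam) (h2 : lam < 2) :
    F lam ∈ SA0 lam ∧ F lam ∉ (SA0 lam).extremePoints ℝ :=
  Pool.Agent.Helper59.Supp.main lam h1 h2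

end Pool.Agent.Results.MP_2eb075_an.NotExtreme
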